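import Pool.Agent.ZPQ.Gr

/-!
# ZPQ, module Ct (helper48): functions of small degree on a large set; the polynomial bound
-/

set_option autoImplicit false

noncomputable section

open Finset
open scoped Classical

namespace Pool.Agent.ZPQ

variable {p : ℕ} [hp : Fact p.Prime] {κ : Type}

/-- the coefficients of `1 - (u - c) ^ (p - 1)` -/
def kk (i : ℕ) (c : ZMod p) : ZMod p :=
  (if i = 0 then 1 else 0) - (-c) ^ (p - 1 - i) * (((p - 1).choose i : ℕ) : ZMod p)

theorem kk_sum (u c : ZMod p) : 1 - (u - c) ^ (p - 1) = ∑ i ∈ range p, kk i c * u ^ i := by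
  have hp1 := hp.out.one_lt
  unfold kk
  have h1 : ∀ i, ((if i = 0 then (1 : ZMod p) else 0) - (-c) ^ (p - 1 - i) *
      (((p - 1).choose i : ℕ) : ZMod p)) * u ^ i =
      (if i = 0 then (1 : ZMod p) else 0) - u ^ i * (-c) ^ (p - 1 - i) *
        (((p - 1).choose i : ℕ) : ZMod p) := by
    intro i
    by_cases hi : i = 0
    · subst hi
      simp
    · rw [if_neg hi]
      ring
  simp_rw [h1]
  rw [sum_sub_distrib]
  congr 1
  · rw [Finset.sum_ite_eq' (range p) 0 (fun _ => (1 : ZMod p)), if_pos (mem_range.2 (by omega))]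
  · rw [sub_eq_add_neg, add_pow]
    have h2 : p - 1 + 1 = p := by omega
    rw [h2]

theorem delta_eq (u c : ZMod p) : 1 - (u - c) ^ (p - 1) = if u = c then 1 else 0 := by
  by_cases h : u = c
  · rw [if_pos h, h, sub_self, zero_pow (Nat.sub_ne_zero_of_lt hp.out.one_lt), sub_zero]
  · rw [if_neg h, ZMod.pow_card_sub_one_eq_one (sub_ne_zero.2 h), sub_self]

/-- the monomials of high degree -/
def JJ (p K : ℕ) : Finset (ℕ × ℕ) :=
  ((range p) ×ˢ (range p)).filter fun ij => 2 * p - 2 - K < ij.1 + ij.2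

theorem card_JJ (K : ℕ) : (JJ p K).card ≤ K * (K + 1) / 2 := by
  have hp1 := hp.out.one_lt
  have h1 : (JJ p K).card ≤ ((range K).sigma fun i => range (K - i)).card := by
    refine card_le_card_of_injOn (fun ij => ⟨p - 1 - ij.1, p - 1 - ij.2⟩) ?_ ?_
    · intro ij hij
      simp only [JJ, coe_filter, mem_product, mem_range, Set.mem_ofPred_eq] at hij
      simp only [mem_coe, mem_sigma, mem_range]
      omega
    · intro x hx y hy hxy
      simp only [JJ, coe_filter, mem_product, mem_range, Set.mem_ofPred_eq] at hx hy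
      simp only [Sigma.mk.injEq, heq_eq_eq] at hxy
      exact Prod.ext (by omega) (by omega)
  have h2 : ((range K).sigma fun i => range (K - i)).card = K * (K + 1) / 2 := by
    rw [card_sigma]
    simp only [card_range]
    have h3 : ∑ i ∈ range K, (K - i) = ∑ i ∈ range K, (i + 1) := by
      rw [← Finset.sum_range_reflect]
      refine sum_congr rfl fun i hi => ?_
      have := mem_range.1 hi
      omega
    have h4 : (∑ i ∈ range K, (i + 1)) * 2 = K * (K + 1) := by
      rw [sum_add_distrib, add_mul, Finset.sum_range_id_mul_two]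
      simp only [sum_const, card_range, smul_eq_mul, mul_one]
      rcases K with _ | K
      · rfl
      · rw [Nat.add_sub_cancel]
        ring
    rw [h3, ← h4, Nat.mul_div_cancel _ (by norm_num)]
  omega

theorem exists_small_degree (W : Finset (VV p)) (K : ℕ) (hW : K * (K + 1) / 2 < W.card) :
    ∃ h : VV p → ZMod p, h ≠ 0 ∧ (∀ x, x ∉ W → h x = 0) ∧ Pd (2 * p - 2 - K) h := by
  obtain ⟨Φ, hΦ⟩ : ∃ Φ : (W → ZMod p) →ₗ[ZMod p] (JJ p K → ZMod p), ∀ f ij,
      Φ f ij = ∑ g : W, f g * (kk ij.1.1 g.1.1 * kk ij.1.2 g.1.2) := by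
    refine ⟨{ toFun := fun f ij => ∑ g : W, f g * (kk ij.1.1 g.1.1 * kk ij.1.2 g.1.2)
              map_add' := ?_
              map_smul' := ?_ }, fun f ij => rfl⟩
    · intro f g
      funext ij
      simp only [Pi.add_apply, add_mul, sum_add_distrib]
    · intro c f
      funext ij
      simp only [Pi.smul_apply, smul_eq_mul, RingHom.id_apply, mul_sum, mul_assoc]
  have hker : LinearMap.ker Φ ≠ ⊥ := by
    apply LinearMap.ker_ne_bot_of_finrank_lt
    rw [Module.finrank_fintype_fun_eq_card, Module.finrank_fintype_fun_eq_card,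
      Fintype.card_coe, Fintype.card_coe]
    exact lt_of_le_of_lt (card_JJ K) hW
  obtain ⟨f, hf, hf0⟩ := (Submodule.ne_bot_iff _).1 hker
  rw [LinearMap.mem_ker] at hf
  obtain ⟨h, hh⟩ : ∃ h : VV p → ZMod p, h = fun x => if hx : x ∈ W then f ⟨x, hx⟩ else 0 := ⟨_, rfl⟩
  have hexp : h = fun x => ∑ ij ∈ (range p) ×ˢ (range p),
      (∑ g : W, f g * (kk ij.1 g.1.1 * kk ij.2 g.1.2)) * (x.1 ^ ij.1 * x.2 ^ ij.2) := by
    funext x
    have h1 : h x = ∑ g : W, f g * ((1 - (x.1 - g.1.1) ^ (p - 1)) *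
        (1 - (x.2 - g.1.2) ^ (p - 1))) := by
      simp_rw [delta_eq]
      rw [hh]
      simp only
      by_cases hx : x ∈ W
      · rw [dif_pos hx, Finset.sum_eq_single ⟨x, hx⟩]
        · simp
        · intro g _ hg
          have hne : ¬ (x.1 = g.1.1 ∧ x.2 = g.1.2) := by
            rintro ⟨h2, h3⟩
            exact hg (Subtype.ext (Prod.ext h2.symm h3.symm))
          by_cases h2 : x.1 = g.1.1
          · rw [if_pos h2, if_neg (fun h3 => hne ⟨h2, h3⟩), mul_zero, mul_zero]
          · rw [if_neg h2, zero_mul, mul_zero]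
        · intro h2
          exact absurd (mem_univ _) h2
      · rw [dif_neg hx, Finset.sum_eq_zero]
        intro g _
        have hne : ¬ (x.1 = g.1.1 ∧ x.2 = g.1.2) := by
          rintro ⟨h2, h3⟩
          exact hx ((Prod.ext h2 h3 : x = g.1) ▸ g.2)
        by_cases h2 : x.1 = g.1.1
        · rw [if_pos h2, if_neg (fun h3 => hne ⟨h2, h3⟩), mul_zero, mul_zero]
        · rw [if_neg h2, zero_mul, mul_zero]
    rw [h1]
    simp_rw [kk_sum]
    simp_rw [sum_mul_sum, mul_sum, sum_mul]
    rw [sum_comm]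
    rw [sum_product]
    refine sum_congr rfl fun i _ => ?_
    rw [sum_comm]
    refine sum_congr rfl fun j _ => ?_
    refine sum_congr rfl fun g _ => ?_
    ring
  refine ⟨h, ?_, ?_, ?_⟩
  · intro h0
    apply hf0
    funext g
    have h1 := congrFun h0 g.1
    rw [hh] at h1
    simp only [g.2, dif_pos, Pi.zero_apply] at h1
    exact h1
  · intro x hx
    rw [hh]
    simp only [hx, dif_neg, not_false_iff]
  · rw [hexp]
    refine Pd_sum _ _ _ fun ij hij => ?_
    by_cases hJ : ij ∈ JJ p K
    · have h1 : ∑ g : W, f g * (kk ij.1 g.1.1 * kk ij.2 g.1.2) = 0 := by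
        have h2 := congrFun hf ⟨ij, hJ⟩
        rw [hΦ] at h2
        exact h2
      simp only [h1, zero_mul]
      exact Pd_const _ 0
    · refine Pd_smul _ _ _ ?_
      have h1 : ij.1 + ij.2 ≤ 2 * p - 2 - K := by
        by_contra h2
        push Not at h2
        exact hJ (mem_filter.2 ⟨hij, h2⟩)
      refine Pd_mono h1 _ ?_
      have hf1 : Pd 1 (fun x : VV p => x.1) := by
        have := Pd_hom (AddMonoidHom.fst (ZMod p) (ZMod p)) (0 : ZMod p)
        simpa using this
      have hf2 : Pd 1 (fun x : VV p => x.2) := by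
        have := Pd_hom (AddMonoidHom.snd (ZMod p) (ZMod p)) (0 : ZMod p)
        simpa using this
      exact Pd_mul _ _ _ _ (Pd_pow ij.1 _ hf1) (Pd_pow ij.2 _ hf2)

/-! ### vanishing -/

theorem vanish (a : κ → VV p) (B : κ → Finset (ZMod p)) (d : κ → ℕ) (P : Finset κ) :
    ∀ (h : VV p → ZMod p) (x : VV p),
      (∀ z : κ → ZMod p, (∀ k ∈ P, z k ∈ B k) → h (x + ∑ k ∈ P, z k • a k) = 0) →
      (∀ k ∈ P, d k < (B k).card) → ∀ c : ZMod p, (∀ y, rho (op P a d) h y = c) → c = 0 := by
  induction P using Finset.induction_on with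
  | empty =>
    intro h x hv _ c hc
    have h1 := hv (fun _ => 0) (fun k hk => absurd hk (notMem_empty k))
    rw [sum_empty, add_zero] at h1
    have h2 := hc x
    unfold op at h2
    rw [prod_empty, rho_one] at h2
    rw [← h2, h1]
  | insert k0 P hk0 ih =>
    intro h x hv hd c hc
    obtain ⟨w, hw⟩ := weights (B k0) (d k0) (hd k0 (mem_insert_self k0 P))
    obtain ⟨s, hs⟩ := hw (a k0)
    refine ih (rho (xi (a k0) ^ d k0 * (1 + xi (a k0) * s)) h) x ?_
      (fun k hk => hd k (mem_insert_of_mem hk)) c ?_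
    · intro z hz
      rw [← hs, rho_sum, Finset.sum_apply]
      refine Finset.sum_eq_zero fun z0 hz0 => ?_
      rw [rho_smul, Pi.smul_apply, rho_ee]
      have h1 := hv (fun k => if k = k0 then z0 else z k) (by
        intro k hk
        by_cases hkk : k = k0
        · simp only [hkk, if_true]
          exact hz0
        · simp only [hkk, if_false]
          exact hz k ((mem_insert.1 hk).resolve_left hkk))
      rw [sum_insert hk0] at h1
      have h2 : ∑ k ∈ P, (if k = k0 then z0 else z k) • a k = ∑ k ∈ P, z k • a k := by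
        refine sum_congr rfl fun k hk => ?_
        rw [if_neg (fun h4 : k = k0 => hk0 (by rw [← h4]; exact hk))]
      simp only [if_true] at h1
      rw [h2] at h1
      have h3 : x + ∑ k ∈ P, z k • a k + z0 • a k0 = x + (z0 • a k0 + ∑ k ∈ P, z k • a k) := by
        abel
      rw [h3, h1, smul_zero]
    · intro y
      have h1 : op P a d * (xi (a k0) ^ d k0 * (1 + xi (a k0) * s)) =
          (1 + s * xi (a k0)) * op (insert k0 P) a d := by
        unfold op
        rw [prod_insert hk0]
        ring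
      rw [← rho_mul, h1, rho_mul, rho_add, rho_one, rho_mul]
      have h2 : rho (xi (a k0)) (rho (op (insert k0 P) a d) h) = 0 :=
        rho_xi_const _ _ fun u v => by rw [hc u, hc v]
      rw [h2, map_zero, add_zero]
      exact hc y

/-- **The polynomial bound.** -/
theorem poly_bound (P : Finset κ) (a : κ → VV p) (ha : ∀ c ∈ P, a c ≠ 0)
    (hind : ∀ c ∈ P, ∀ d ∈ P, c ≠ d → Ind (a c) (a d)) (B : κ → Finset (ZMod p))
    (hB : ∀ k ∈ P, 1 ≤ (B k).card) (e K : ℕ)
    (he : p - 1 + e ≤ ∑ x ∈ P, min ((B x).card - 1) e)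
    (hK : 2 * p - 2 + e ≤ ∑ x ∈ P, ((B x).card - 1) + K)
    (W : Finset (VV p))
    (hW : ∀ z : κ → ZMod p, (∀ k ∈ P, z k ∈ B k) → ∑ k ∈ P, z k • a k ∉ W) :
    W.card ≤ K * (K + 1) / 2 := by
  by_contra hcon
  push Not at hcon
  obtain ⟨h, h0, hv, hd⟩ := exists_small_degree W K hcon
  have hDe : e ≤ ∑ x ∈ P, ((B x).card - 1) := by
    have h1 : ∑ x ∈ P, min ((B x).card - 1) e ≤ ∑ x ∈ P, ((B x).card - 1) :=
      sum_le_sum fun x _ => min_le_left _ _
    omega
  obtain ⟨d, hdD, c0, hc0, hc⟩ := greedy P a ha hind (fun x => (B x).card - 1) e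
    (2 * p - 2 - K) he (by omega) h hd h0
  apply hc0
  refine vanish a B d P h 0 ?_ ?_ c0 hc
  · intro z hz
    rw [zero_add]
    exact hv _ (hW z hz)
  · intro k hk
    have h1 := hdD k hk
    have h2 := hB k hk
    omega

end Pool.Agent.ZPQ
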