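import Mathlib

/-!
# ZPQ, module Df (helper48): difference operators and degree of functions with values in `ZMod p`

Sums of distinct elements in `Z_p ^ 2` by the polynomial method (MP_ec93d3_co).
`Pd k h`: all `(k + 1)`-fold differences of `h` vanish.
-/

set_option autoImplicit false

noncomputable section

open Finset
open scoped Classical

namespace Pool.Agent.ZPQ

section basic

variable {V F : Type} [AddCommGroup V] [CommRing F]

/-- difference operator -/
def dl (a : V) (h : V → F) : V → F := fun x => h (x + a) - h x

/-- degree at most `k` -/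
def Pd : ℕ → (V → F) → Prop
  | 0, h => ∀ x y, h x = h y
  | (k + 1), h => ∀ a, Pd k (dl a h)

theorem Pd_const (k : ℕ) (c : F) : Pd k (fun _ : V => c) := by
  induction k with
  | zero => exact fun _ _ => rfl
  | succ k ih =>
    intro a
    have : dl a (fun _ : V => c) = fun _ => (0 : F) := by
      funext x
      simp [dl]
    rw [this]
    clear ih this
    induction k with
    | zero => exact fun _ _ => rfl
    | succ k ih =>
      intro b
      have : dl b (fun _ : V => (0 : F)) = fun _ => (0 : F) := by
        funext x
        simp [dl]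
      rw [this]
      exact ih

theorem dl_zero_of_const (a : V) (h : V → F) (hc : ∀ x y, h x = h y) : dl a h = fun _ => 0 := by
  funext x
  unfold dl
  rw [hc (x + a) x, sub_self]

theorem Pd_succ (k : ℕ) (h : V → F) (hk : Pd k h) : Pd (k + 1) h := by
  induction k generalizing h with
  | zero =>
    intro a
    rw [dl_zero_of_const a h hk]
    exact Pd_const 0 0
  | succ k ih =>
    intro a
    exact ih _ (hk a)

theorem Pd_mono {k l : ℕ} (hkl : k ≤ l) (h : V → F) (hk : Pd k h) : Pd l h := by
  induction l, hkl using Nat.le_induction with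
  | base => exact hk
  | succ l _ ih => exact Pd_succ l h ih

theorem Pd_add (k : ℕ) (f g : V → F) (hf : Pd k f) (hg : Pd k g) : Pd k (fun x => f x + g x) := by
  induction k generalizing f g with
  | zero =>
    intro x y
    simp only
    rw [hf x y, hg x y]
  | succ k ih =>
    intro a
    have : dl a (fun x => f x + g x) = fun x => dl a f x + dl a g x := by
      funext x
      unfold dl
      ring
    rw [this]
    exact ih _ _ (hf a) (hg a)

theorem Pd_smul (k : ℕ) (c : F) (f : V → F) (hf : Pd k f) : Pd k (fun x => c * f x) := by
  induction k generalizing f with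
  | zero =>
    intro x y
    simp only
    rw [hf x y]
  | succ k ih =>
    intro a
    have : dl a (fun x => c * f x) = fun x => c * dl a f x := by
      funext x
      unfold dl
      ring
    rw [this]
    exact ih _ (hf a)

theorem Pd_sum {ι : Type} (k : ℕ) (s : Finset ι) (f : ι → V → F) (hf : ∀ i ∈ s, Pd k (f i)) :
    Pd k (fun x => ∑ i ∈ s, f i x) := by
  induction s using Finset.induction_on with
  | empty =>
    simp only [sum_empty]
    exact Pd_const k 0
  | insert i s hi ih =>
    have : (fun x => ∑ j ∈ insert i s, f j x) = fun x => f i x + ∑ j ∈ s, f j x := by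
      funext x
      rw [sum_insert hi]
    rw [this]
    exact Pd_add k _ _ (hf i (mem_insert_self i s)) (ih fun j hj => hf j (mem_insert_of_mem hj))

theorem Pd_mul_aux (n : ℕ) : ∀ (a b : ℕ), a + b = n → ∀ f g : V → F, Pd a f → Pd b g →
    Pd n (fun x => f x * g x) := by
  induction n with
  | zero =>
    intro a b hab f g hf hg
    have ha : a = 0 := by omega
    have hb : b = 0 := by omega
    subst ha hb
    intro x y
    simp only
    rw [hf x y, hg x y]
  | succ n ih =>
    intro a b hab f g hf hg
    rcases a with _ | a
    · -- `f` is constant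
      have h1 : (fun x => f x * g x) = fun x => f 0 * g x := by
        funext x
        rw [hf x 0]
      rw [h1]
      have hb : b = n + 1 := by omega
      subst hb
      exact Pd_smul _ _ _ hg
    · rcases b with _ | b
      · have h1 : (fun x => f x * g x) = fun x => g 0 * f x := by
          funext x
          rw [hg x 0, mul_comm]
        rw [h1]
        have ha : a = n := by omega
        subst ha
        exact Pd_smul _ _ _ hf
      · intro v
        have h1 : dl v (fun x => f x * g x) =
            fun x => (dl v f x * g x + f x * dl v g x) + dl v f x * dl v g x := by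
          funext x
          unfold dl
          ring
        rw [h1]
        refine Pd_add _ _ _ (Pd_add _ _ _ ?_ ?_) ?_
        · exact ih a (b + 1) (by omega) _ _ (hf v) hg
        · exact ih (a + 1) b (by omega) _ _ hf (hg v)
        · exact ih a (b + 1) (by omega) _ _ (hf v) (Pd_succ _ _ (hg v))

theorem Pd_mul (a b : ℕ) (f g : V → F) (hf : Pd a f) (hg : Pd b g) :
    Pd (a + b) (fun x => f x * g x) := Pd_mul_aux (a + b) a b rfl f g hf hg

theorem Pd_pow (k : ℕ) (f : V → F) (hf : Pd 1 f) : Pd k (fun x => f x ^ k) := by
  induction k with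
  | zero =>
    simp only [pow_zero]
    exact Pd_const 0 1
  | succ k ih =>
    have h1 : (fun x => f x ^ (k + 1)) = fun x => f x ^ k * f x := by
      funext x
      rw [pow_succ]
    rw [h1]
    exact Pd_mul k 1 _ _ ih hf

theorem Pd_hom (l : V →+ F) (c : F) : Pd 1 (fun x => l x - c) := by
  intro a x y
  unfold dl
  simp only [map_add]
  ring

end basic

/-! ### functions that are invariant under a line -/

variable {p : ℕ} [hp : Fact p.Prime]

/-- a function on `Z_p ^ 2` that is invariant under a nonzero vector has degree at most `p - 1` -/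
theorem Pd_inv (a : ZMod p × ZMod p) (ha : a ≠ 0) (h : ZMod p × ZMod p → ZMod p)
    (hi : dl a h = 0) : Pd (p - 1) h := by
  -- the linear form
  obtain ⟨l, hl⟩ : ∃ l : ZMod p × ZMod p →+ ZMod p, ∀ x, l x = a.1 * x.2 - a.2 * x.1 := by
    refine ⟨⟨⟨fun x => a.1 * x.2 - a.2 * x.1, by simp⟩, ?_⟩, fun x => rfl⟩
    intro x y
    simp only [Prod.fst_add, Prod.snd_add]
    ring
  have hstep : ∀ x, h (x + a) = h x := fun x => by
    have := congrFun hi x
    unfold dl at this
    simpa [sub_eq_zero] using this
  have hnat : ∀ (n : ℕ) x, h (x + (n : ZMod p) • a) = h x := by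
    intro n
    induction n with
    | zero => intro x; simp
    | succ n ih =>
      intro x
      have : x + ((n + 1 : ℕ) : ZMod p) • a = (x + (n : ZMod p) • a) + a := by
        push_cast
        rw [add_smul, one_smul]
        abel
      rw [this, hstep, ih]
  have hmul : ∀ (z : ZMod p) x, h (x + z • a) = h x := by
    intro z x
    have h1 := hnat z.val x
    rwa [ZMod.natCast_zmod_val] at h1
  have hfac : ∀ x y, l x = l y → h x = h y := by
    intro x y hxy
    rw [hl, hl] at hxy
    have h1 : ∃ z : ZMod p, y = x + z • a := by
      by_cases h1 : a.1 = 0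
      · have h2 : a.2 ≠ 0 := fun h3 => ha (Prod.ext h1 h3)
        refine ⟨(y.2 - x.2) / a.2, Prod.ext ?_ ?_⟩
        · rw [h1] at hxy
          simp only [zero_mul, zero_sub, neg_inj] at hxy
          have := mul_left_cancel₀ h2 hxy
          simp [h1, this]
        · simp only [Prod.snd_add, Prod.smul_snd, smul_eq_mul]
          field_simp
          ring
      · refine ⟨(y.1 - x.1) / a.1, Prod.ext ?_ ?_⟩
        · simp only [Prod.fst_add, Prod.smul_fst, smul_eq_mul]
          field_simp
          ring
        · simp only [Prod.snd_add, Prod.smul_snd, smul_eq_mul]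
          field_simp
          linear_combination -hxy
    obtain ⟨z, rfl⟩ := h1
    exact (hmul z x).symm
  -- interpolation
  have hsurj : ∀ c : ZMod p, ∃ v, l v = c := by
    intro c
    by_cases h1 : a.1 = 0
    · have h2 : a.2 ≠ 0 := fun h3 => ha (Prod.ext h1 h3)
      refine ⟨(-(c / a.2), 0), ?_⟩
      rw [hl]
      field_simp
      ring
    · refine ⟨(0, c / a.1), ?_⟩
      rw [hl]
      field_simp
      ring
  choose v hv using hsurj
  have hexp : h = fun x => ∑ c : ZMod p, h (v c) * (1 - (l x - c) ^ (p - 1)) := by
    funext x
    rw [Finset.sum_eq_single (l x)]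
    · rw [sub_self, zero_pow (Nat.sub_ne_zero_of_lt hp.out.one_lt), sub_zero, mul_one]
      exact hfac x (v (l x)) (hv (l x)).symm
    · intro c _ hc
      rw [ZMod.pow_card_sub_one_eq_one (sub_ne_zero.2 hc.symm), sub_self, mul_zero]
    · intro h1
      exact absurd (mem_univ _) h1
  rw [hexp]
  refine Pd_sum _ _ _ fun c _ => Pd_smul _ _ _ ?_
  have h1 : (fun x => 1 - (l x - c) ^ (p - 1)) = fun x => 1 + (-1) * (l x - c) ^ (p - 1) := by
    funext x
    ring
  rw [h1]
  exact Pd_add _ _ _ (Pd_const _ 1) (Pd_smul _ _ _ (Pd_pow _ _ (Pd_hom l c)))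

end Pool.Agent.ZPQ
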