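import Pool.Agent.ZPQ.Rr

/-!
# ZPQ, module Gr (helper48): the greedy choice of difference operators
-/

set_option autoImplicit false

noncomputable section

open Finset
open scoped Classical

namespace Pool.Agent.ZPQ

variable {p : ℕ} [hp : Fact p.Prime] {κ : Type}

/-- the product of the operators with orders `d` -/
def op (P : Finset κ) (a : κ → VV p) (d : κ → ℕ) : RR p := ∏ k ∈ P, xi (a k) ^ d k

theorem op_zero (P : Finset κ) (a : κ → VV p) : op P a (fun _ => 0) = 1 := by
  unfold op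
  simp

theorem op_add (P : Finset κ) (a : κ → VV p) (d : κ → ℕ) (c : κ) (hc : c ∈ P) :
    op P a (fun k => d k + if k = c then 1 else 0) = op P a d * xi (a c) := by
  unfold op
  rw [← Finset.mul_prod_erase P _ hc, ← Finset.mul_prod_erase P (fun k => xi (a k) ^ d k) hc]
  simp only [if_true]
  rw [pow_succ]
  have h1 : ∏ x ∈ P.erase c, xi (a x) ^ (d x + if x = c then 1 else 0) =
      ∏ x ∈ P.erase c, xi (a x) ^ d x := by
    refine prod_congr rfl fun x hx => ?_
    rw [if_neg (mem_erase.1 hx).1, add_zero]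
  rw [h1]
  ring

/-- the two vectors span -/
def Ind (a b : VV p) : Prop := ∀ x : VV p, ∃ i j : ℕ, x = i • a + j • b

theorem inv_nsmul (a : VV p) (h : VV p → ZMod p) (hi : dl a h = 0) (n : ℕ) (x : VV p) :
    h (x + n • a) = h x := by
  induction n with
  | zero => rw [zero_smul, add_zero]
  | succ n ih =>
    rw [succ_nsmul, ← add_assoc]
    have := congrFun hi (x + n • a)
    unfold dl at this
    simp only [Pi.zero_apply] at this
    rw [sub_eq_zero.1 this, ih]

theorem sum_erase_dec (P : Finset κ) (m : κ → ℕ) (c b : κ) (hc : c ∈ P) (hm : 1 ≤ m c) (k : ℕ)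
    (h : k + 1 ≤ ∑ x ∈ P.erase b, m x) (hc' : k + 1 ≤ ∑ x ∈ P.erase c, m x) :
    k ≤ ∑ x ∈ P.erase b, (m x - if x = c then 1 else 0) := by
  by_cases hbc : b = c
  · subst hbc
    have h1 : ∑ x ∈ P.erase b, (m x - if x = b then 1 else 0) = ∑ x ∈ P.erase b, m x := by
      refine sum_congr rfl fun x hx => ?_
      rw [if_neg (mem_erase.1 hx).1, Nat.sub_zero]
    omega
  · have hcb : c ∈ P.erase b := mem_erase.2 ⟨fun h => hbc h.symm, hc⟩
    have h1 := Finset.add_sum_erase (P.erase b) m hcb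
    have h2 := Finset.add_sum_erase (P.erase b) (fun x => m x - if x = c then 1 else 0) hcb
    have h3 : ∑ x ∈ (P.erase b).erase c, (m x - if x = c then 1 else 0) =
        ∑ x ∈ (P.erase b).erase c, m x := by
      refine sum_congr rfl fun x hx => ?_
      rw [if_neg (mem_erase.1 hx).1, Nat.sub_zero]
    simp only [if_true] at h2
    omega

theorem const_of_two (a b : VV p) (hab : Ind a b) (h : VV p → ZMod p) (ha : dl a h = 0)
    (hb : dl b h = 0) (x y : VV p) : h x = h y := by
  have key : ∀ z, h z = h 0 := by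
    intro z
    obtain ⟨i, j, rfl⟩ := hab z
    rw [inv_nsmul b h hb]
    have := inv_nsmul a h ha i 0
    rwa [zero_add] at this
  rw [key x, key y]

theorem const_case (P : Finset κ) (a : κ → VV p) (h : VV p → ZMod p) (h0 : h ≠ 0)
    (hk : ∀ x y, h x = h y) (m : κ → ℕ) :
    ∃ d : κ → ℕ, (∀ c ∈ P, d c ≤ m c) ∧ ∃ c0 : ZMod p, c0 ≠ 0 ∧
        ∀ x, rho (op P a d) h x = c0 := by
  refine ⟨fun _ => 0, fun _ _ => Nat.zero_le _, h 0, ?_, ?_⟩
  · intro h1
    apply h0
    funext x
    rw [hk x 0, h1]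
    rfl
  · intro x
    rw [op_zero, rho_one]
    exact hk x 0

/-- **Phase 2.** -/
theorem greedy2 (P : Finset κ) (a : κ → VV p) (hP : P.Nonempty)
    (hind : ∀ c ∈ P, ∀ d ∈ P, c ≠ d → Ind (a c) (a d)) (k : ℕ) :
    ∀ (h : VV p → ZMod p), Pd k h → h ≠ 0 → ∀ m : κ → ℕ,
      (∀ b ∈ P, k ≤ ∑ x ∈ P.erase b, m x) →
      ∃ d : κ → ℕ, (∀ c ∈ P, d c ≤ m c) ∧ ∃ c0 : ZMod p, c0 ≠ 0 ∧
        ∀ x, rho (op P a d) h x = c0 := by
  induction k with
  | zero =>
    intro h hk h0 m _
    exact const_case P a h h0 hk m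
  | succ k ih =>
    intro h hk h0 m hm
    by_cases hex : ∃ c ∈ P, 1 ≤ m c ∧ dl (a c) h ≠ 0
    · obtain ⟨c, hc, hmc, hne⟩ := hex
      obtain ⟨d, hd, c0, hc0, hd'⟩ := ih (dl (a c) h) (hk (a c)) hne
        (fun x => m x - if x = c then 1 else 0)
        (fun b hb => sum_erase_dec P m c b hc hmc k (hm b hb) (hm c hc))
      refine ⟨fun x => d x + if x = c then 1 else 0, ?_, c0, hc0, ?_⟩
      · intro x hx
        have h1 := hd x hx
        simp only at h1 ⊢
        by_cases hxc : x = c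
        · rw [if_pos hxc] at h1 ⊢
          rw [hxc] at h1 ⊢
          omega
        · rw [if_neg hxc] at h1 ⊢
          omega
      · intro x
        rw [op_add P a d c hc, rho_mul, rho_xi]
        exact hd' x
    · push Not at hex
      have hpos : ∀ b ∈ P, ∃ c ∈ P, c ≠ b ∧ 1 ≤ m c := by
        intro b hb
        by_contra hcon
        push Not at hcon
        have h1 := hm b hb
        rw [Finset.sum_eq_zero (fun x hx => by
          have := hcon x (mem_of_mem_erase hx) (mem_erase.1 hx).1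
          omega)] at h1
        omega
      obtain ⟨b, hb⟩ := hP
      obtain ⟨c1, hc1, -, hm1⟩ := hpos b hb
      obtain ⟨c2, hc2, hne, hm2⟩ := hpos c1 hc1
      exact const_case P a h h0
        (const_of_two (a c1) (a c2) (hind c1 hc1 c2 hc2 hne.symm) h (hex c1 hc1 hm1)
          (hex c2 hc2 hm2)) m

/-- **Phase 1.** -/
theorem greedy1 (P : Finset κ) (a : κ → VV p) (hP : P.Nonempty) (ha : ∀ c ∈ P, a c ≠ 0)
    (hind : ∀ c ∈ P, ∀ d ∈ P, c ≠ d → Ind (a c) (a d)) (m : κ → ℕ)
    (hm : ∀ b ∈ P, p - 1 ≤ ∑ x ∈ P.erase b, m x) (n : ℕ) :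
    ∀ (h : VV p → ZMod p), Pd (p - 1 + n) h → h ≠ 0 → ∀ r : κ → ℕ, n ≤ ∑ x ∈ P, r x →
      ∃ d : κ → ℕ, (∀ c ∈ P, d c ≤ m c + r c) ∧ ∃ c0 : ZMod p, c0 ≠ 0 ∧
        ∀ x, rho (op P a d) h x = c0 := by
  induction n with
  | zero =>
    intro h hk h0 r _
    obtain ⟨d, hd, h1⟩ := greedy2 P a hP hind (p - 1) h hk h0 m hm
    exact ⟨d, fun c hc => (hd c hc).trans (Nat.le_add_right _ _), h1⟩
  | succ n ih =>
    intro h hk h0 r hr
    obtain ⟨c, hc, hrc⟩ : ∃ c ∈ P, 1 ≤ r c := by
      by_contra hcon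
      push Not at hcon
      rw [Finset.sum_eq_zero (fun x hx => by
        have := hcon x hx
        omega)] at hr
      omega
    by_cases hne : dl (a c) h = 0
    · obtain ⟨d, hd, h1⟩ := greedy2 P a hP hind (p - 1) h (Pd_inv (a c) (ha c hc) h hne) h0 m hm
      exact ⟨d, fun c hc => (hd c hc).trans (Nat.le_add_right _ _), h1⟩
    · obtain ⟨d, hd, c0, hc0, hd'⟩ := ih (dl (a c) h) (hk (a c)) hne
        (fun x => r x - if x = c then 1 else 0) (by
          have h1 := Finset.add_sum_erase P r hc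
          have h2 := Finset.add_sum_erase P (fun x => r x - if x = c then 1 else 0) hc
          have h3 : ∑ x ∈ P.erase c, (r x - if x = c then 1 else 0) = ∑ x ∈ P.erase c, r x := by
            refine sum_congr rfl fun x hx => ?_
            rw [if_neg (mem_erase.1 hx).1, Nat.sub_zero]
          simp only [if_true] at h2
          omega)
      refine ⟨fun x => d x + if x = c then 1 else 0, ?_, c0, hc0, ?_⟩
      · intro x hx
        have h1 := hd x hx
        simp only at h1 ⊢
        by_cases hxc : x = c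
        · rw [if_pos hxc] at h1 ⊢
          rw [hxc] at h1 ⊢
          omega
        · rw [if_neg hxc] at h1 ⊢
          omega
      · intro x
        rw [op_add P a d c hc, rho_mul, rho_xi]
        exact hd' x

/-- multiplicities with a given sum -/
theorem sub_mult (P : Finset κ) (m : κ → ℕ) (n : ℕ) (hn : n ≤ ∑ x ∈ P, m x) :
    ∃ m' : κ → ℕ, (∀ x ∈ P, m' x ≤ m x) ∧ ∑ x ∈ P, m' x = n := by
  induction P using Finset.induction_on generalizing n with
  | empty =>
    refine ⟨m, fun _ _ => le_rfl, ?_⟩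
    rw [sum_empty] at hn ⊢
    omega
  | insert c P hc ih =>
    rw [sum_insert hc] at hn
    obtain ⟨m', h1, h2⟩ := ih (n - min n (m c)) (by omega)
    refine ⟨fun x => if x = c then min n (m c) else m' x, ?_, ?_⟩
    · intro x hx
      by_cases hxc : x = c
      · simp only [hxc, if_true]
        exact min_le_right _ _
      · simp only [hxc, if_false]
        exact h1 x ((mem_insert.1 hx).resolve_left hxc)
    · rw [sum_insert hc]
      have h3 : ∑ x ∈ P, (if x = c then min n (m c) else m' x) = ∑ x ∈ P, m' x := by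
        refine sum_congr rfl fun x hx => ?_
        rw [if_neg (fun h4 : x = c => hc (by rw [← h4]; exact hx))]
      rw [h3, h2, if_pos rfl]
      have := min_le_left n (m c)
      omega

/-- **The greedy theorem.** -/
theorem greedy (P : Finset κ) (a : κ → VV p) (ha : ∀ c ∈ P, a c ≠ 0)
    (hind : ∀ c ∈ P, ∀ d ∈ P, c ≠ d → Ind (a c) (a d)) (D : κ → ℕ) (e k : ℕ)
    (he : p - 1 + e ≤ ∑ x ∈ P, min (D x) e) (hk : k + e ≤ ∑ x ∈ P, D x)
    (h : VV p → ZMod p) (hh : Pd k h) (h0 : h ≠ 0) :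
    ∃ d : κ → ℕ, (∀ c ∈ P, d c ≤ D c) ∧ ∃ c0 : ZMod p, c0 ≠ 0 ∧
        ∀ x, rho (op P a d) h x = c0 := by
  have hp1 := hp.out.one_lt
  have hP : P.Nonempty := by
    rw [nonempty_iff_ne_empty]
    rintro rfl
    rw [sum_empty] at he
    omega
  obtain ⟨m, hm1, hm2⟩ := sub_mult P (fun x => min (D x) e) (p - 1 + e) he
  have hm : ∀ b ∈ P, p - 1 ≤ ∑ x ∈ P.erase b, m x := by
    intro b hb
    have h1 := Finset.add_sum_erase P m hb
    have h2 := hm1 b hb
    have h3 := min_le_right (D b) e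
    omega
  have hmD : ∀ x ∈ P, m x ≤ D x := fun x hx => (hm1 x hx).trans (min_le_left _ _)
  have hsub : ∑ x ∈ P, (D x - m x) + (p - 1 + e) = ∑ x ∈ P, D x := by
    rw [← hm2, ← sum_add_distrib]
    refine sum_congr rfl fun x hx => ?_
    have := hmD x hx
    omega
  obtain ⟨d, hd, h1⟩ := greedy1 P a hP ha hind m hm (k - (p - 1)) h
    (Pd_mono (by omega) h hh) h0 (fun x => D x - m x) (by omega)
  refine ⟨d, fun c hc => ?_, h1⟩
  have h2 := hd c hc
  have h3 := hmD c hc
  omega

end Pool.Agent.ZPQ
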