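import Pool.Agent.ZPQ.Df

/-!
# ZPQ, module Rr (helper48): the group algebra of `Z_p ^ 2` and weights on subsets of a line
-/

set_option autoImplicit false

noncomputable section

open Finset
open scoped Classical

namespace Pool.Agent.ZPQ

/-- `Z_p ^ 2` -/
abbrev VV (p : ℕ) := ZMod p × ZMod p

/-- the group algebra -/
abbrev RR (p : ℕ) := AddMonoidAlgebra (ZMod p) (VV p)

variable {p : ℕ} [hp : Fact p.Prime]

/-- the group element `a` -/
def ee (a : VV p) : RR p := AddMonoidAlgebra.single a 1

/-- `a - 1` -/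
def xi (a : VV p) : RR p := ee a - 1

theorem ee_add (a b : VV p) : ee (a + b) = ee a * ee b := by
  unfold ee
  rw [AddMonoidAlgebra.single_mul_single, one_mul]

theorem ee_zero : ee (0 : VV p) = 1 := rfl

theorem ee_nsmul (n : ℕ) (a : VV p) : ee (n • a) = ee a ^ n := by
  induction n with
  | zero => rw [zero_smul, pow_zero, ee_zero]
  | succ n ih => rw [succ_nsmul, ee_add, ih, pow_succ]

theorem smul_val (z : ZMod p) (a : VV p) : z • a = z.val • a := by
  conv_lhs => rw [← ZMod.natCast_zmod_val z]
  exact Nat.cast_smul_eq_nsmul (ZMod p) z.val a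

theorem ee_smul (z : ZMod p) (a : VV p) : ee (z • a) = (1 + xi a) ^ z.val := by
  rw [smul_val, ee_nsmul]
  congr 1
  unfold xi
  ring

/-- the shift representation -/
def sh : Multiplicative (VV p) →* Module.End (ZMod p) (VV p → ZMod p) where
  toFun g :=
    { toFun := fun h x => h (x + g.toAdd)
      map_add' := fun _ _ => rfl
      map_smul' := fun _ _ => rfl }
  map_one' := by
    refine LinearMap.ext fun h => funext fun x => ?_
    show h (x + 0) = h x
    rw [add_zero]
  map_mul' a b := by
    refine LinearMap.ext fun h => funext fun x => ?_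
    show h (x + (a.toAdd + b.toAdd)) = h (x + a.toAdd + b.toAdd)
    rw [add_assoc]

/-- the action of the group algebra on functions -/
def rho : RR p →ₐ[ZMod p] Module.End (ZMod p) (VV p → ZMod p) :=
  AddMonoidAlgebra.lift (ZMod p) (Module.End (ZMod p) (VV p → ZMod p)) (VV p) sh

theorem rho_ee (a : VV p) (h : VV p → ZMod p) (x : VV p) : rho (ee a) h x = h (x + a) := by
  unfold rho ee
  rw [AddMonoidAlgebra.lift_single, one_smul]
  rfl

theorem rho_mul (r s : RR p) (h : VV p → ZMod p) : rho (r * s) h = rho r (rho s h) := by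
  rw [map_mul]
  rfl

theorem rho_one (h : VV p → ZMod p) : rho (1 : RR p) h = h := by
  rw [map_one]
  rfl

theorem rho_add (r s : RR p) (h : VV p → ZMod p) : rho (r + s) h = rho r h + rho s h := by
  rw [map_add]
  rfl

theorem rho_xi (a : VV p) (h : VV p → ZMod p) : rho (xi a) h = dl a h := by
  unfold xi
  rw [map_sub, LinearMap.sub_apply]
  funext x
  rw [Pi.sub_apply, rho_ee, rho_one]
  rfl

theorem rho_smul (c : ZMod p) (r : RR p) (h : VV p → ZMod p) :
    rho (c • r) h = c • rho r h := by
  rw [map_smul]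
  rfl

theorem rho_sum {ι : Type} (s : Finset ι) (f : ι → RR p) (h : VV p → ZMod p) :
    rho (∑ i ∈ s, f i) h = ∑ i ∈ s, rho (f i) h := by
  rw [map_sum, LinearMap.sum_apply]

/-- `xi a` kills constants -/
theorem rho_xi_const (a : VV p) (h : VV p → ZMod p) (hc : ∀ x y, h x = h y) :
    rho (xi a) h = 0 := by
  rw [rho_xi, dl_zero_of_const a h hc]
  rfl

theorem xi_pow (a : VV p) : xi a ^ p = 0 := by
  unfold xi
  have : CharP (RR p) p := by
    have h1 : CharP (ZMod p) p := inferInstance
    exact charP_of_injective_algebraMap (algebraMap (ZMod p) (RR p)).injective p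
  rw [sub_pow_char, one_pow, ← ee_nsmul]
  have h1 : p • a = 0 := by
    have h2 := Nat.cast_smul_eq_nsmul (ZMod p) p a
    rw [← h2, CharP.cast_eq_zero, zero_smul]
  rw [h1, ee_zero, sub_self]

/-- **Weights.**  On a set `B` of more than `d` multiples there are weights which give an operator of order
exactly `d`. -/
theorem weights (B : Finset (ZMod p)) (d : ℕ) (hd : d < B.card) :
    ∃ w : ZMod p → ZMod p, ∀ a : VV p, ∃ s : RR p,
      ∑ z ∈ B, w z • ee (z • a) = xi a ^ d * (1 + xi a * s) := by
  obtain ⟨S, hSB, hSc⟩ := Finset.exists_subset_card_eq (s := B) (n := d + 1) hd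
  have hdp : d < p := by
    have h1 : B.card ≤ p := by
      have := card_le_univ B
      rwa [ZMod.card] at this
    omega
  obtain ⟨w0, hw0⟩ : ∃ w0 : ZMod p → ZMod p, w0 = fun z =>
    if z ∈ S then (∏ j ∈ S.erase z, (z - j))⁻¹ else 0 := ⟨_, rfl⟩
  have hcoef : ∀ P : Polynomial (ZMod p), P.degree < S.card →
      P.coeff d = ∑ z ∈ B, w0 z * P.eval z := by
    intro P hP
    have h1 := Lagrange.coeff_eq_sum (s := S) (v := fun z : ZMod p => z)
      (fun _ _ _ _ h => h) hP
    rw [hSc, Nat.add_sub_cancel] at h1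
    rw [h1, ← Finset.sum_subset hSB]
    · refine sum_congr rfl fun z hz => ?_
      rw [hw0]
      simp only [if_pos hz]
      rw [div_eq_mul_inv, mul_comm]
    · intro z _ hz
      rw [hw0]
      simp only [if_neg hz, zero_mul]
  have hfac : ∀ m : ℕ, m < p → ((m.factorial : ℕ) : ZMod p) ≠ 0 := by
    intro m hm h1
    rw [ZMod.natCast_eq_zero_iff] at h1
    exact absurd ((Nat.Prime.dvd_factorial hp.out).1 h1) (by omega)
  obtain ⟨κ, hκ⟩ : ∃ κ : ℕ → ZMod p, κ = fun m =>
    ∑ z ∈ B, ((d.factorial : ℕ) : ZMod p) * w0 z * ((z.val.choose m : ℕ) : ZMod p) := ⟨_, rfl⟩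
  have hκm : ∀ m : ℕ, m ≤ d → κ m * ((m.factorial : ℕ) : ZMod p) =
      ((d.factorial : ℕ) : ZMod p) * (descPochhammer (ZMod p) m).coeff d := by
    intro m hm
    rw [hcoef]
    · rw [hκ]
      simp only
      rw [sum_mul, mul_sum]
      refine sum_congr rfl fun z _ => ?_
      have h1 := descPochhammer_eval_eq_descFactorial (ZMod p) z.val m
      rw [ZMod.natCast_zmod_val] at h1
      rw [h1, Nat.descFactorial_eq_factorial_mul_choose]
      push_cast
      ring
    · rw [hSc, Polynomial.degree_lt_iff_coeff_zero]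
      intro n hn
      apply Polynomial.coeff_eq_zero_of_natDegree_lt
      rw [descPochhammer_natDegree]
      omega
  have hκ0 : ∀ m : ℕ, m < d → κ m = 0 := by
    intro m hm
    have h1 := hκm m hm.le
    have h2 : (descPochhammer (ZMod p) m).coeff d = 0 := by
      apply Polynomial.coeff_eq_zero_of_natDegree_lt
      rw [descPochhammer_natDegree]
      exact hm
    rw [h2, mul_zero] at h1
    exact (mul_eq_zero.1 h1).resolve_right (hfac m (by omega))
  have hκd : κ d = 1 := by
    have h1 := hκm d le_rfl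
    have h2 : (descPochhammer (ZMod p) d).coeff d = 1 := by
      have h3 := monic_descPochhammer (ZMod p) d
      have h4 := descPochhammer_natDegree (ZMod p) d
      rw [Polynomial.Monic, Polynomial.leadingCoeff, h4] at h3
      exact h3
    rw [h2, mul_one] at h1
    exact mul_right_cancel₀ (hfac d hdp) (by rw [h1, one_mul])
  refine ⟨fun z => ((d.factorial : ℕ) : ZMod p) * w0 z, fun a => ?_⟩
  have hexp : ∑ z ∈ B, (((d.factorial : ℕ) : ZMod p) * w0 z) • ee (z • a) =
      ∑ m ∈ range p, κ m • xi a ^ m := by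
    have h1 : ∀ z : ZMod p, ee (z • a) =
        ∑ m ∈ range p, ((z.val.choose m : ℕ) : ZMod p) • xi a ^ m := by
      intro z
      rw [ee_smul, add_comm 1, add_pow]
      have hlt : z.val < p := ZMod.val_lt z
      rw [← Finset.sum_subset (Finset.range_subset_range.2 (show z.val + 1 ≤ p by omega))]
      · refine sum_congr rfl fun m _ => ?_
        rw [one_pow, mul_one, mul_comm, Nat.cast_smul_eq_nsmul, nsmul_eq_mul]
      · intro m _ hm
        rw [mem_range, not_lt] at hm
        rw [Nat.choose_eq_zero_of_lt (by omega), Nat.cast_zero, zero_smul]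
    rw [hκ]
    simp only [Finset.sum_smul]
    rw [Finset.sum_comm]
    refine sum_congr rfl fun z _ => ?_
    rw [h1 z, Finset.smul_sum]
    refine sum_congr rfl fun m _ => ?_
    rw [smul_smul]
  obtain ⟨q, hq⟩ : ∃ q, p = d + 1 + q := ⟨p - (d + 1), by omega⟩
  refine ⟨∑ m ∈ range q, κ (d + 1 + m) • xi a ^ m, ?_⟩
  have h5 : ∑ m ∈ range p, κ m • xi a ^ m = ∑ m ∈ range (d + 1 + q), κ m • xi a ^ m := by
    rw [← hq]
  rw [hexp, h5, Finset.sum_range_add, Finset.sum_range_succ, hκd, one_smul,
    Finset.sum_eq_zero (fun m hm => by rw [hκ0 m (mem_range.1 hm), zero_smul]), zero_add,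
    mul_add, mul_one]
  congr 1
  rw [← mul_assoc, ← pow_succ, Finset.mul_sum]
  refine sum_congr rfl fun m _ => ?_
  rw [pow_add, mul_smul_comm]

end Pool.Agent.ZPQ
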